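import Pool.Agent.Y192.OG.StE

/-!
Logarithmic pluricanonical forms as functions, in a frame of logarithmic derivations.
-/

set_option autoImplicit false

namespace Pool.Agent.Y96.OG

open FF MvPolynomial Pool.Agent.W603.LV Pool.Agent.W602.GT Pool.Agent.TH122.AB Pool.Agent.Y192.OG

section zero

variable {k K : Type} [Field k] [Field K] [Algebra ℂ k] [Algebra ℂ K] [Algebra k K]
  [IsScalarTower ℂ k K]

/-- the field on which a derivation into an extension vanishes -/
def kons (D : Derivation ℂ k K) : IntermediateField ℂ k where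
  carrier := {x | D x = 0}
  mul_mem' := by
    intro a b ha hb
    simp only [Set.mem_ofPred_eq] at ha hb ⊢
    rw [D.leibniz, ha, hb]; simp
  add_mem' := by
    intro a b ha hb
    simp only [Set.mem_ofPred_eq] at ha hb ⊢
    rw [map_add, ha, hb, add_zero]
  algebraMap_mem' := fun r => D.map_algebraMap r
  inv_mem' := by
    intro a ha
    simp only [Set.mem_ofPred_eq] at ha ⊢
    rw [D.leibniz_inv, ha]; simp

/-- a derivation is linear over its field of constants -/
noncomputable def overKons (D : Derivation ℂ k K) : Derivation (kons D) k K :=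
  Derivation.mk'
    { toFun := fun x => D x
      map_add' := fun x y => map_add D x y
      map_smul' := fun c x => by
        have h : D (c : k) = 0 := c.2
        change D ((c : k) * x) = (c : k) • D x
        rw [D.leibniz, h]; simp }
    (fun x y => D.leibniz x y)

omit [IsScalarTower ℂ k K] in
theorem derK_zero (D : Derivation ℂ k K) {ι : Type} (z : ι → k) (hz : IsTranscendenceBasis ℂ z)
    (h : ∀ i, D (z i) = 0) : D = 0 := by
  have hS : Algebra.IsAlgebraic (IntermediateField.adjoin ℂ (Set.range z)) k := hz.isAlgebraic_field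
  have hle : IntermediateField.adjoin ℂ (Set.range z) ≤ kons D := by
    rw [IntermediateField.adjoin_le_iff]
    rintro _ ⟨i, rfl⟩
    exact h i
  have halg : Algebra.IsAlgebraic (kons D) k := by
    let _ : Algebra (IntermediateField.adjoin ℂ (Set.range z)) (kons D) :=
      (IntermediateField.inclusion hle).toRingHom.toAlgebra
    have : IsScalarTower (IntermediateField.adjoin ℂ (Set.range z)) (kons D) k :=
      IsScalarTower.of_algebraMap_eq fun x => rfl
    exact Algebra.IsAlgebraic.extendScalars (R := IntermediateField.adjoin ℂ (Set.range z))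
      (IntermediateField.inclusion hle).toRingHom.injective
  ext f
  have hint : IsIntegral (kons D) f := (halg.isAlgebraic f).isIntegral
  have hchar : CharZero (kons D) := charZero_of_injective_algebraMap
    (algebraMap ℂ (kons D)).injective
  have h1 : overKons D (Polynomial.aeval f (minpoly (kons D) f)) = 0 := by
    rw [minpoly.aeval, map_zero]
  rw [Derivation.map_aeval] at h1
  have h2 : Polynomial.aeval f (Polynomial.derivative (minpoly (kons D) f)) ≠ 0 :=
    (minpoly.irreducible hint).separable.aeval_derivative_ne_zero (minpoly.aeval _ _)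
  exact (smul_eq_zero.mp h1).resolve_left h2

end zero

section frame

variable {k K : Type} [Field k] [Field K] [Algebra ℂ k] [Algebra ℂ K] [Algebra k K]
  [IsScalarTower ℂ k K]

/-- a frame of derivations -/
structure Frame {b d0 : ℕ} (t : Fin b → K) (D : Fin b ⊕ Fin d0 → Derivation ℂ K K) : Prop where
  inl_k : ∀ j (c : k), D (Sum.inl j) (algebraMap k K c) = 0
  inl_t : ∀ j l, D (Sum.inl j) (t l) = if l = j then t l else 0
  inr_k : ∀ i (c : k), ∃ c' : k, D (Sum.inr i) (algebraMap k K c) = algebraMap k K c'
  inr_t : ∀ i l, D (Sum.inr i) (t l) = 0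
  span : ∀ E : Derivation ℂ K K, ∃ a : Fin b ⊕ Fin d0 → K, E = ∑ s, a s • D s

theorem exists_frame {b d0 : ℕ} (z : Fin d0 → k) (hz : IsTranscendenceBasis ℂ z) (t : Fin b → K)
    (ht : IsTranscendenceBasis k t) :
    ∃ D : Fin b ⊕ Fin d0 → Derivation ℂ K K, Frame (k := k) t D := by
  classical
  have hb : IsTranscendenceBasis ℂ (Sum.elim t (algebraMap k K ∘ z)) := hz.sumElim_comp ht
  have ht0 : ∀ j, t j ≠ 0 := fun j => ht.1.ne_zero j
  have hex : ∀ s : Fin b ⊕ Fin d0, ∃ D : Derivation ℂ K K,
      ∀ r, D (Sum.elim t (algebraMap k K ∘ z) r) =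
        if r = s then Sum.elim t (fun _ => (1 : K)) s else 0 := fun s =>
    exists_der _ hb _
  choose D hD using hex
  have hDz : ∀ (δ : Derivation ℂ k k) (s : Fin b ⊕ Fin d0),
      (∀ i, D s (algebraMap k K (z i)) = algebraMap k K (δ (z i))) →
      ∀ c : k, D s (algebraMap k K c) = algebraMap k K (δ c) := by
    intro δ s h c
    let E : Derivation ℂ k K := Derivation.mk'
      (((D s : K →ₗ[ℂ] K).comp (IsScalarTower.toAlgHom ℂ k K).toLinearMap) -
        ((IsScalarTower.toAlgHom ℂ k K).toLinearMap.comp (δ : k →ₗ[ℂ] k))) (by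
      intro x y
      simp only [LinearMap.sub_apply, LinearMap.comp_apply, AlgHom.toLinearMap_apply,
        IsScalarTower.toAlgHom_apply, Derivation.coeFn_coe, map_mul, Derivation.leibniz,
        smul_eq_mul, map_add, Algebra.smul_def]
      ring)
    have hE : E = 0 := derK_zero E z hz (by
      intro i
      change D s (algebraMap k K (z i)) - algebraMap k K (δ (z i)) = 0
      rw [h i, sub_self])
    have h2 : E c = 0 := by rw [hE]; rfl
    exact sub_eq_zero.1 h2
  refine ⟨D, ?_, ?_, ?_, ?_, ?_⟩
  · intro j c
    have := hDz 0 (Sum.inl j) (fun i => by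
      have := hD (Sum.inl j) (Sum.inr i)
      simpa using this) c
    simpa using this
  · intro j l
    have := hD (Sum.inl j) (Sum.inl l)
    simp only [Sum.elim_inl, Sum.inl.injEq] at this
    rw [this]
    by_cases h : l = j
    · rw [if_pos h, if_pos h, h]
    · rw [if_neg h, if_neg h]
  · intro i c
    obtain ⟨δ, hδ⟩ := exists_der z hz (fun l => if l = i then (1 : k) else 0)
    refine ⟨δ c, hDz δ (Sum.inr i) (fun l => ?_) c⟩
    have := hD (Sum.inr i) (Sum.inr l)
    simp only [Sum.elim_inr, Function.comp_apply, Sum.inr.injEq] at this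
    rw [this, hδ]
    by_cases h : l = i
    · simp [h]
    · simp [h]
  · intro i l
    have := hD (Sum.inr i) (Sum.inl l)
    simpa using this
  · intro E
    refine ⟨Sum.elim (fun j => E (t j) / t j) (fun i => E (algebraMap k K (z i))), ?_⟩
    apply der_ext _ hb
    intro r
    have hco : ∀ (S : Finset (Fin b ⊕ Fin d0)) (a : Fin b ⊕ Fin d0 → K) (x : K),
        (∑ s ∈ S, a s • D s) x = ∑ s ∈ S, a s * D s x := by
      intro S a x
      induction S using Finset.induction_on with
      | empty => simp
      | insert s S hs ih => rw [Finset.sum_insert hs, Finset.sum_insert hs, Derivation.add_apply,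
          ih, Derivation.smul_apply, smul_eq_mul]
    rw [hco, Finset.sum_eq_single r]
    · rw [hD, if_pos rfl]
      cases r with
      | inl j => simp only [Sum.elim_inl]; rw [div_mul_cancel₀ _ (ht0 j)]
      | inr i => simp
    · intro s _ hs
      rw [hD, if_neg (Ne.symm hs), mul_zero]
    · intro h
      exact absurd (Finset.mem_univ r) h

end frame

section poly

variable {k : Type} [Field k] {b : ℕ}

theorem coeff_X_pderiv (p : MvPolynomial (Fin b) k) (j : Fin b) (m : Fin b →₀ ℕ) :
    coeff m (X j * pderiv j p) = (m j : k) * coeff m p := by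
  classical
  induction p using MvPolynomial.induction_on' with
  | add p q hp hq => rw [map_add, mul_add, coeff_add, hp, hq, coeff_add, mul_add]
  | monomial n a =>
    rw [X_mul_pderiv_monomial, coeff_smul, coeff_monomial, nsmul_eq_mul]
    by_cases h : n = m
    · rw [if_pos h, h]
    · rw [if_neg h, mul_zero, mul_zero]

theorem exists_not_dvd [CharZero k] (p : MvPolynomial (Fin b) k) (hp : Irreducible p)
    (hX : ∀ i, ¬ (X i ∣ p)) : ∃ j, ¬ (p ∣ X j * pderiv j p) := by
  classical
  by_contra hcon
  push Not at hcon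
  have hp0 : p ≠ 0 := hp.ne_zero
  have hc : ∀ j, ∃ c : k, ∀ m, (m j : k) * coeff m p = c * coeff m p := by
    intro j
    obtain ⟨r, hr⟩ := hcon j
    by_cases h0 : X j * pderiv j p = 0
    · refine ⟨0, fun m => ?_⟩
      rw [← coeff_X_pderiv, h0, coeff_zero, zero_mul]
    · have hr0 : r ≠ 0 := fun h => h0 (by rw [hr, h, mul_zero])
      have h1 := totalDegree_mul_of_isDomain hp0 hr0
      have h2 : (X j * pderiv j p).totalDegree ≤ p.totalDegree := by
        apply Finset.sup_mono
        intro m hm
        rw [mem_support_iff] at hm ⊢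
        intro h
        apply hm
        rw [coeff_X_pderiv, h, mul_zero]
      rw [hr, h1] at h2
      have h3 : r.totalDegree = 0 := by omega
      rw [totalDegree_eq_zero_iff_eq_C] at h3
      refine ⟨r.coeff 0, fun m => ?_⟩
      rw [← coeff_X_pderiv, hr, h3, mul_comm, coeff_C_mul, coeff_C]
      simp
  choose c hc using hc
  obtain ⟨m, hm⟩ := MvPolynomial.ne_zero_iff.mp hp0
  have huniq : ∀ m', coeff m' p ≠ 0 → m' = m := by
    intro m' hm'
    ext j
    have h1 := mul_right_cancel₀ hm (hc j m)
    have h2 := mul_right_cancel₀ hm' (hc j m')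
    have h3 : ((m' j : ℕ) : k) = (m j : ℕ) := by rw [h1, h2]
    exact_mod_cast h3
  have hpm : p = monomial m (coeff m p) := by
    ext m'
    rw [coeff_monomial]
    by_cases h : m = m'
    · rw [if_pos h, h]
    · rw [if_neg h]
      by_contra h4
      exact h (huniq m' h4).symm
  have hm0 : m ≠ 0 := by
    intro h
    apply hp.not_isUnit
    rw [hpm, h]
    change IsUnit (C (coeff 0 p))
    rw [h] at hm
    exact (isUnit_iff_ne_zero.2 hm).map C
  obtain ⟨i, hi⟩ := Finsupp.ne_iff.mp hm0
  apply hX i
  rw [hpm, X_dvd_monomial]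
  right
  simpa using hi

end poly


section log

variable {k K : Type} [Field k] [Field K] [Algebra k K] (P : Place k K)

theorem reg_div_unit {x u : K} (hx : P.Reg x) (hu : P.ord u = 0) : P.Reg (x / u) := by
  rw [div_eq_mul_inv]
  refine P.reg_mul hx (Or.inr ?_)
  rw [P.ord_inv, hu, neg_zero]

theorem reg_int (n : ℤ) : P.Reg ((n : ℤ) : K) := by
  have := P.reg_const (n : k)
  rwa [map_intCast] at this

theorem reg_pow {x : K} (hx : P.Reg x) (n : ℕ) : P.Reg (x ^ n) := by
  induction n with
  | zero => rw [pow_zero]; exact P.reg_one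
  | succ n ih => rw [pow_succ]; exact P.reg_mul ih hx

theorem ld_mul_zpow (D : Derivation ℤ K K) {p u : K} (hp : p ≠ 0) (hu : u ≠ 0) (n : ℤ) :
    D (p ^ n * u) / (p ^ n * u) = n * (D p / p) + D u / u := by
  have h1 : p ^ n ≠ 0 := zpow_ne_zero _ hp
  rw [D.leibniz, D.leibniz_zpow, zpow_sub_one₀ hp]
  simp only [smul_eq_mul, zsmul_eq_mul]
  field_simp
  ring

end log

theorem det_upd {n : ℕ} {K : Type} [Field K] (j : Fin n) (v : Fin n → K) :
    ((1 : Matrix (Fin n) (Fin n) K).updateCol j v).det = v j := by
  rw [← Matrix.cramer_apply, Matrix.cramer_one]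
  rfl

theorem sum_upd {k K : Type} [Field k] [Field K] [Algebra k K] {n : ℕ} (j : Fin n) (v : Fin n → K)
    (D : Fin n → Derivation k K K) (l : Fin n) (x : K) :
    (∑ m, (1 : Matrix (Fin n) (Fin n) K).updateCol j v l m • D m) x =
      v l * D j x + if l = j then 0 else D l x := by
  classical
  have hco : ∀ (S : Finset (Fin n)) (a : Fin n → K) (x : K),
      (∑ s ∈ S, a s • D s) x = ∑ s ∈ S, a s * D s x := by
    intro S a x
    induction S using Finset.induction_on with
    | empty => simp
    | insert s S hs ih => rw [Finset.sum_insert hs, Finset.sum_insert hs, Derivation.add_apply,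
        ih, Derivation.smul_apply, smul_eq_mul]
  rw [hco, ← Finset.add_sum_erase _ _ (Finset.mem_univ j)]
  congr 1
  · rw [Matrix.updateCol_apply, if_pos rfl]
  · by_cases h : l = j
    · rw [if_pos h]
      apply Finset.sum_eq_zero
      intro m hm
      rw [Matrix.updateCol_apply, if_neg (Finset.ne_of_mem_erase hm), Matrix.one_apply,
        if_neg (by rw [h]; exact (Finset.ne_of_mem_erase hm).symm), zero_mul]
    · rw [if_neg h, Finset.sum_eq_single l]
      · rw [Matrix.updateCol_apply, if_neg h, Matrix.one_apply, if_pos rfl, one_mul]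
      · intro m hm hml
        rw [Matrix.updateCol_apply, if_neg (Finset.ne_of_mem_erase hm), Matrix.one_apply,
          if_neg hml.symm, zero_mul]
      · intro h2
        exact absurd (Finset.mem_erase.2 ⟨h, Finset.mem_univ l⟩) h2

/-- the derivative of a polynomial -/
theorem der_poly {k K : Type} [Field k] [Field K] [Algebra ℂ K] [Algebra k K] {b : ℕ}
    (t : Fin b → K) (D : Derivation ℂ K K) (j : Fin b)
    (h1 : ∀ c : k, D (algebraMap k K c) = 0) (h2 : ∀ l, D (t l) = if l = j then t l else 0)
    (p : MvPolynomial (Fin b) k) : D (aeval t p) = aeval t (X j * pderiv j p) := by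
  classical
  induction p using MvPolynomial.induction_on with
  | C c => rw [aeval_C, h1, pderiv_C, mul_zero, map_zero]
  | add p q hp hq => rw [map_add, map_add, hp, hq, map_add, mul_add, map_add]
  | mul_X p i hp =>
    rw [map_mul, D.leibniz, hp, aeval_X, h2, pderiv_mul, pderiv_X]
    simp only [smul_eq_mul, map_mul, map_add, aeval_X]
    by_cases h : i = j
    · subst h
      rw [if_pos rfl, Pi.single_eq_same, map_one]
      ring
    · rw [if_neg h, Pi.single_eq_of_ne h, map_zero]
      ring

/-- logarithmic pluricanonical forms as functions -/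
theorem t_forms (h_der : St_der) (h_divtower : St_divtower) (h_divadic : St_divadic)
    (h_divtor : St_divtor) (h_deradic : St_deradic) (h_dertor : St_dertor) : St_forms := by
  classical
  intro k F K _ _ _ _ _ _ _ _ _ _ _ _ b d X hb hX Bd G hBd hlgt
  obtain ⟨htr, N, hN, ω, hpl, hlog, hreg, Dw, hw0, hwind⟩ := hlgt
  -- the transcendence bases
  set t : Fin b → K := fun i => algebraMap F K (X i) with ht_def
  have halgF : Algebra.IsAlgebraic F K := Algebra.IsAlgebraic.of_finite F K
  have hae : ∀ A : MvPolynomial (Fin b) k, aeval t A = algebraMap F K (aeval X A) := fun A => by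
    have := MvPolynomial.aeval_algebraMap_apply K X A
    exact this
  have hXb : IsTranscendenceBasis k X := by
    rw [hX.ind.isTranscendenceBasis_iff_isAlgebraic]
    refine ⟨fun g => ?_⟩
    obtain ⟨A, B, hB, rfl⟩ := hX.gen g
    have hA' : aeval X A ∈ Algebra.adjoin k (Set.range X) := by
      rw [Algebra.adjoin_range_eq_range_aeval]; exact ⟨A, rfl⟩
    have hB' : aeval X B ∈ Algebra.adjoin k (Set.range X) := by
      rw [Algebra.adjoin_range_eq_range_aeval]; exact ⟨B, rfl⟩
    rw [div_eq_mul_inv]
    exact (isAlgebraic_algebraMap (⟨_, hA'⟩ : Algebra.adjoin k (Set.range X))).mul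
      (isAlgebraic_algebraMap (⟨_, hB'⟩ : Algebra.adjoin k (Set.range X))).inv
  have htb : IsTranscendenceBasis k t := hXb.algebraMap_comp
  obtain ⟨d0, hd0, hdd⟩ : ∃ d0 : ℕ, Algebra.trdeg ℂ k = d0 ∧ d = d0 + b := by
    have h1 := trdeg_add_eq ℂ k (A := K)
    rw [← htb.cardinalMk_eq_trdeg, htr, Cardinal.mk_fin] at h1
    have h2 : Algebra.trdeg ℂ k < Cardinal.aleph0 :=
      (self_le_add_right _ _).trans_lt (h1 ▸ Cardinal.natCast_lt_aleph0)
    obtain ⟨d0, hd0⟩ := Cardinal.lt_aleph0.1 h2
    refine ⟨d0, hd0, ?_⟩
    rw [hd0] at h1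
    exact_mod_cast h1.symm
  obtain ⟨z, hz⟩ : ∃ z : Fin d0 → k, IsTranscendenceBasis ℂ z := by
    obtain ⟨s, hs⟩ := exists_isTranscendenceBasis ℂ k
    have h1 : Cardinal.mk s = d0 := by rw [hs.cardinalMk_eq_trdeg, hd0]
    have h2 : Cardinal.mk (Fin d0) = Cardinal.mk s := by rw [h1, Cardinal.mk_fin]
    obtain ⟨e⟩ := Cardinal.eq.1 h2
    exact ⟨_, (isTranscendenceBasis_equiv e).2 hs⟩
  obtain ⟨D, hD⟩ := exists_frame (K := K) z hz t htb
  obtain ⟨ε⟩ : Nonempty (Fin b ⊕ Fin d0 ≃ Fin d) := ⟨by
    rw [hdd, Nat.add_comm]; exact finSumFinEquiv⟩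
  set Dd : Fin d → Derivation ℂ K K := fun i => D (ε.symm i) with hDd
  have hk : ∀ i, ∀ c : k, ∃ c' : k, Dd i (algebraMap k K c) = algebraMap k K c' := by
    intro i c
    rw [hDd]
    cases h : ε.symm i with
    | inl j => exact ⟨0, by simp only [h]; rw [hD.inl_k, map_zero]⟩
    | inr j => obtain ⟨c', hc'⟩ := hD.inr_k j c; exact ⟨c', by simp only [h]; exact hc'⟩
  have htt : ∀ i l, ∃ e : k, Dd i (algebraMap F K (X l)) = algebraMap k K e * algebraMap F K (X l) := by
    intro i l
    rw [hDd]
    cases h : ε.symm i with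
    | inl j =>
      refine ⟨if l = j then 1 else 0, ?_⟩
      simp only [h]
      have := hD.inl_t j l
      rw [ht_def] at this
      rw [this]
      by_cases hlj : l = j
      · simp [hlj]
      · simp [hlj]
    | inr j =>
      refine ⟨0, ?_⟩
      simp only [h]
      have := hD.inr_t j l
      rw [ht_def] at this
      rw [this, map_zero, zero_mul]
  -- the change of frame
  have hspan : ∀ E : Derivation ℂ K K, ∃ a : Fin d → K, E = ∑ j, a j • Dd j := by
    intro E
    obtain ⟨a, ha⟩ := hD.span E
    refine ⟨fun j => a (ε.symm j), ?_⟩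
    rw [ha, ← Equiv.sum_comp ε.symm (fun s => a s • D s)]
  choose A hA using fun i => hspan (Dw i)
  have hDw : Dw = fun i => ∑ j, (Matrix.of A) i j • Dd j := funext hA
  have hωw : ∀ i, ω i Dw = (Matrix.of A).det ^ N * ω i Dd := by
    intro i
    rw [hDw]
    exact hpl i _ _
  have hdet : (Matrix.of A).det ≠ 0 := by
    intro h
    apply hw0
    rw [hωw, h, zero_pow (by omega), zero_mul]
  have hdetN := pow_ne_zero N hdet
  have hψ0 : ω 0 Dd ≠ 0 := by
    intro h
    apply hw0
    rw [hωw, h, mul_zero]
  have hfun : (fun i : Fin d => ω i.succ Dw / ω 0 Dw) = fun i => ω i.succ Dd / ω 0 Dd := by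
    funext i
    rw [hωw, hωw, mul_div_mul_left _ _ hdetN]
  rw [hfun] at hwind
  refine ⟨N, fun i => ω i Dd, hN, ?_, ?_, ?_⟩
  · -- algebraicity
    intro y
    have hbas : IsTranscendenceBasis ℂ (fun i : Fin d => ω i.succ Dd / ω 0 Dd) :=
      hwind.isTranscendenceBasis_of_lift_trdeg_le_of_finite (by rw [htr]; simp)
    have halg := hbas.isAlgebraic_field
    have hle : IntermediateField.adjoin ℂ (Set.range fun i : Fin d => ω i.succ Dd / ω 0 Dd) ≤
        IntermediateField.adjoin ℂ (Set.range fun i => ω i Dd) := by
      rw [IntermediateField.adjoin_le_iff]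
      rintro _ ⟨i, rfl⟩
      exact div_mem (IntermediateField.subset_adjoin _ _ ⟨i.succ, rfl⟩)
        (IntermediateField.subset_adjoin _ _ ⟨0, rfl⟩)
    let _ : Algebra (IntermediateField.adjoin ℂ (Set.range fun i : Fin d => ω i.succ Dd / ω 0 Dd))
        (IntermediateField.adjoin ℂ (Set.range fun i => ω i Dd)) :=
      (IntermediateField.inclusion hle).toRingHom.toAlgebra
    have : IsScalarTower (IntermediateField.adjoin ℂ (Set.range fun i : Fin d => ω i.succ Dd / ω 0 Dd))
        (IntermediateField.adjoin ℂ (Set.range fun i => ω i Dd)) K :=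
      IsScalarTower.of_algebraMap_eq fun x => rfl
    have h2 := Algebra.IsAlgebraic.extendScalars
      (R := IntermediateField.adjoin ℂ (Set.range fun i : Fin d => ω i.succ Dd / ω 0 Dd))
      (S := IntermediateField.adjoin ℂ (Set.range fun i => ω i Dd)) (A := K)
      (IntermediateField.inclusion hle).toRingHom.injective
    exact h2.isAlgebraic y
  · -- adic places
    intro p hp hpX q hq P e hPq i
    have hdiv : Divisorial d (resP P) :=
      h_divtower k K d0 b d hd0 hb hdd P (h_divadic k F K b X hX p hp q hq P e hPq)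
    have hreg' : ∀ (l : Fin d) (g : F), q.Reg g → P.Reg (Dd l (algebraMap F K g)) := by
      intro l g hg
      exact h_deradic k F K b X hX p hp q hq P e hPq ((Dd l).restrictScalars ℤ) (hk l) (htt l) g hg
    constructor
    · -- general index
      obtain ⟨j, hj⟩ := exists_not_dvd p hp hpX
      set pp : K := algebraMap F K (aeval X p) with hpp
      have hinj := (algebraMap F K).injective
      have hXp0 : aeval X p ≠ 0 := hX.ne hp.ne_zero
      have hpp0 : pp ≠ 0 := fun h => hXp0 (hinj (by rw [map_zero]; exact h))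
      have hj0 : MvPolynomial.X j * pderiv j p ≠ 0 := fun h => hj (h ▸ dvd_zero p)
      set j0 : Fin d := ε (Sum.inl j) with hj0_def
      have hDj0 : Dd j0 = D (Sum.inl j) := by rw [hDd, hj0_def]; simp
      have ha : Dd j0 pp = algebraMap F K (aeval X (MvPolynomial.X j * pderiv j p)) := by
        rw [hDj0, hpp, ← hae, ← hae]
        exact der_poly t (D (Sum.inl j)) j (hD.inl_k j) (hD.inl_t j) p
      have hann0 : aeval X (MvPolynomial.X j * pderiv j p) ≠ 0 := hX.ne hj0
      have ha0 : Dd j0 pp ≠ 0 := by
        rw [ha]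
        exact fun h => hann0 (hinj (by rw [h, map_zero]))
      have haord : P.ord (Dd j0 pp) = 0 := by
        rw [ha, hPq.2, (hq.2 _ hj0).2.2 hj, mul_zero]
      have hqp : q.Reg (aeval X p) := Or.inr (by rw [hq.1]; norm_num)
      have hPp : P.Reg pp := hPq.reg.2 hqp
      set v : Fin d → K := fun l => if l = j0 then pp else - (Dd l pp / Dd j0 pp) with hv
      set B : Matrix (Fin d) (Fin d) K := (1 : Matrix (Fin d) (Fin d) K).updateCol j0 v with hB
      have hDerLog : ∀ l, DerLog (resP P) (∑ m, B l m • Dd m) := by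
        intro l
        have hlogF : ∀ g : F, P.Reg ((∑ m, B l m • Dd m) (algebraMap F K g) / algebraMap F K g) := by
          intro g
          by_cases hg : g = 0
          · rw [hg, map_zero, div_zero]; exact P.reg_zero
          -- write `g = p ^ n * u`
          set n : ℤ := q.ord g with hn
          set u : F := (aeval X p) ^ (-n) * g with hu
          have hu0 : u ≠ 0 := mul_ne_zero (zpow_ne_zero _ hXp0) hg
          have huord : q.ord u = 0 := by
            rw [hu, q.ord_mul (zpow_ne_zero _ hXp0) hg, q.ord_zpow, hq.1]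
            ring_nf
            rw [hn]; ring
          have hgu : algebraMap F K g = pp ^ n * algebraMap F K u := by
            rw [hu, map_mul, map_zpow₀, ← hpp, ← mul_assoc, ← zpow_add₀ hpp0]
            simp
          have hu0' : algebraMap F K u ≠ 0 := fun h => hu0 (hinj (by rw [h, map_zero]))
          have huordP : P.ord (algebraMap F K u) = 0 := by rw [hPq.2, huord, mul_zero]
          have hureg : q.Reg u := Or.inr huord.ge
          have hld := ld_mul_zpow ((∑ m, B l m • Dd m).restrictScalars ℤ) hpp0 hu0' n
          rw [Derivation.restrictScalars_apply, Derivation.restrictScalars_apply,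
            Derivation.restrictScalars_apply] at hld
          rw [hgu, hld, hB, sum_upd, sum_upd]
          by_cases hl : l = j0
          · have hvl : v l = pp := by rw [hv]; simp [hl]
            rw [if_pos hl, if_pos hl, hvl, add_zero, add_zero, mul_div_assoc, mul_div_assoc]
            have h1 : pp * (Dd j0 pp / pp) = Dd j0 pp := by field_simp
            rw [h1]
            refine P.reg_add (P.reg_mul (reg_int P n) (Or.inr haord.ge)) (P.reg_mul hPp ?_)
            exact reg_div_unit P (hreg' j0 u hureg) huordP
          · have hvl : v l = - (Dd l pp / Dd j0 pp) := by rw [hv]; simp [hl]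
            rw [if_neg hl, if_neg hl, hvl]
            have h1 : - (Dd l pp / Dd j0 pp) * Dd j0 pp + Dd l pp = 0 := by
              field_simp
              ring
            rw [h1, zero_div, mul_zero, zero_add]
            refine reg_div_unit P (P.reg_add (P.reg_mul (P.reg_neg ?_) (hreg' j0 u hureg))
              (hreg' l u hureg)) huordP
            exact reg_div_unit P (hreg' l _ hqp) haord
        intro h
        exact (h_der k F K q P e hPq ((∑ m, B l m • Dd m).restrictScalars ℤ)).1 hlogF h
      have h1 := hlog (resP P) hdiv i (fun l => ∑ m, B l m • Dd m) hDerLog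
      rw [hpl i B Dd, hB, det_upd] at h1
      have h2 : v j0 = pp := by rw [hv]; simp
      rw [h2, mul_comm] at h1
      exact h1
    · intro he hG
      have hord : ∀ l, P.ord (algebraMap F K (X l)) = 0 := by
        intro l
        have hXl : (MvPolynomial.X l : MvPolynomial (Fin b) k) ≠ 0 := X_ne_zero l
        have hnd : ¬ p ∣ MvPolynomial.X l := by
          intro hdvd
          have hirr : Irreducible (MvPolynomial.X l : MvPolynomial (Fin b) k) :=
            X_prime.irreducible
          exact hpX l ((hp.associated_of_dvd hirr hdvd).symm.dvd)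
        have h1 := (hq.2 _ hXl).2.2 hnd
        rw [aeval_X] at h1
        rw [hPq.2, h1, mul_zero]
      have h1 := hreg (resP P) hdiv (hBd P hord hG) i Dd (by
        intro l f hf
        exact (h_der k F K q P e hPq ((Dd l).restrictScalars ℤ)).2 he (hreg' l) f hf)
      exact h1
  · -- toric places
    intro w hw q hq P e hPq i
    have hdiv : Divisorial d (resP P) :=
      h_divtower k K d0 b d hd0 hb hdd P (h_divtor k F K b X hX w hw q hq P e hPq)
    have h1 := hlog (resP P) hdiv i Dd (by
      intro l h
      exact (h_der k F K q P e hPq ((Dd l).restrictScalars ℤ)).1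
        (h_dertor k F K b X hX w q hq P e hPq ((Dd l).restrictScalars ℤ) (hk l) (htt l)) h)
    exact h1

end Pool.Agent.Y96.OG
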